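import Mathlib
import Pool.Agent.W333.EC.LsvA
import Pool.Agent.Helper112.Arith

/-! Exceptional characters, primitive characters (part 2 of LSV). -/

set_option autoImplicit false

namespace Pool.Agent.W333.EC

open Finset
open Pool.Agent.W78.EC

/-- the nontrivial character modulo `4` -/
noncomputable def psi4 : DirichletCharacter ℂ 4 := ZMod.χ₄.ringHomComp (Int.castRingHom ℂ)

theorem psi4_apply (x : ZMod 4) : psi4 x = ((ZMod.χ₄ x : ℤ) : ℂ) := rfl

theorem psi4_one {n : ℕ} (h : n % 4 = 1) : psi4 (n : ZMod 4) = 1 := by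
  rw [psi4_apply, ZMod.χ₄_nat_one_mod_four h]; norm_num

theorem psi4_three {n : ℕ} (h : n % 4 = 3) : psi4 (n : ZMod 4) = -1 := by
  rw [psi4_apply, ZMod.χ₄_nat_three_mod_four h]; norm_num

theorem psi4_ne_one : psi4 ≠ 1 := by
  intro h
  have h1 : psi4 ((3 : ℕ) : ZMod 4) = -1 := psi4_three (by norm_num)
  rw [h] at h1
  have h2 : IsUnit ((3 : ℕ) : ZMod 4) := (ZMod.isUnit_iff_coprime 3 4).mpr (by norm_num)
  rw [MulChar.one_apply h2] at h1
  norm_num at h1

/-- the only nontrivial character modulo `4` -/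
theorem eq_psi4 (ψ : DirichletCharacter ℂ 4) (h : ψ ≠ 1) : ψ = psi4 := by
  have hu : ∀ u : (ZMod 4)ˣ, u = 1 ∨ (u : ZMod 4) = ((3 : ℕ) : ZMod 4) := by decide
  have h3u : IsUnit ((3 : ℕ) : ZMod 4) := (ZMod.isUnit_iff_coprime 3 4).mpr (by norm_num)
  have h9 : ((3 : ℕ) : ZMod 4) * ((3 : ℕ) : ZMod 4) = 1 := by decide
  have hsq : ψ ((3 : ℕ) : ZMod 4) * ψ ((3 : ℕ) : ZMod 4) = 1 := by
    rw [← map_mul, h9, map_one]
  have hval : ψ ((3 : ℕ) : ZMod 4) = -1 := by
    rcases mul_self_eq_one_iff.1 hsq with h1 | h1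
    · exfalso
      apply h
      ext u
      rcases hu u with rfl | h2
      · simp
      · rw [h2, h1, MulChar.one_apply h3u]
    · exact h1
  ext u
  rcases hu u with rfl | h2
  · simp
  · rw [h2, hval, psi4_three (by norm_num)]

open scoped Classical in
/-- the exceptional characters -/
noncomputable def Ex (D : ℕ) : Finset (DirichletCharacter ℂ D) :=
  univ.filter (fun χ => χ = 1 ∨ ∃ h : 4 ∣ D, χ = DirichletCharacter.changeLevel h psi4)

theorem mem_Ex {D : ℕ} {χ : DirichletCharacter ℂ D} :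
    χ ∈ Ex D ↔ χ = 1 ∨ ∃ h : 4 ∣ D, χ = DirichletCharacter.changeLevel h psi4 := by
  classical
  unfold Ex
  rw [mem_filter]
  exact ⟨fun h => h.2, fun h => ⟨mem_univ _, h⟩⟩

open scoped Classical in
/-- the other characters -/
noncomputable def Oth (D : ℕ) : Finset (DirichletCharacter ℂ D) :=
  univ.filter (fun χ => ¬ χ ∈ Ex D)

theorem mem_Oth {D : ℕ} {χ : DirichletCharacter ℂ D} : χ ∈ Oth D ↔ χ ∉ Ex D := by
  classical
  unfold Oth
  rw [mem_filter]
  exact ⟨fun h => h.2, fun h => ⟨mem_univ _, h⟩⟩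

theorem sum_split {D : ℕ} (F : DirichletCharacter ℂ D → ℂ) :
    ∑ χ : DirichletCharacter ℂ D, F χ = ∑ χ ∈ Ex D, F χ + ∑ χ ∈ Oth D, F χ := by
  classical
  unfold Oth
  rw [← sum_filter_add_sum_filter_not univ (fun χ => χ ∈ Ex D) F]
  congr 1
  refine sum_congr ?_ fun _ _ => rfl
  ext χ
  simp

theorem chL_one {D : ℕ} (h : 4 ∣ D) {m : ℕ} (hm : m.Coprime D) (h1 : m % 4 = 1) :
    DirichletCharacter.changeLevel h psi4 (m : ZMod D) = 1 := by
  have h2 := DirichletCharacter.changeLevel_eq_cast_of_dvd' psi4 h (a := (m : ℤ))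
    (by exact_mod_cast Nat.isCoprime_iff_coprime.mpr hm)
  push_cast at h2
  rw [h2, psi4_one h1]

theorem chL_three {D : ℕ} (h : 4 ∣ D) {m : ℕ} (hm : m.Coprime D) (h1 : m % 4 = 3) :
    DirichletCharacter.changeLevel h psi4 (m : ZMod D) = -1 := by
  have h2 := DirichletCharacter.changeLevel_eq_cast_of_dvd' psi4 h (a := (m : ℤ))
    (by exact_mod_cast Nat.isCoprime_iff_coprime.mpr hm)
  push_cast at h2
  rw [h2, psi4_three h1]

theorem inv_one_of {D : ℕ} (χ : DirichletCharacter ℂ D) {x : ZMod D} (h : χ x = 1) :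
    χ⁻¹ x = 1 := by
  rw [MulChar.inv_apply_eq_inv', h, inv_one]

/-- the contribution of the exceptional characters -/
theorem Ex_sum {Q t u D c : ℕ} [NeZero D] (hc : c.Coprime D) :
    ∑ χ ∈ Ex D, χ (c : ZMod D) * (SS Q t χ * SS Q u χ⁻¹) =
      (((1 + ch4 D c) * (TD Q t D * TD Q u D) : ℝ) : ℂ) := by
  have hcu : IsUnit (c : ZMod D) := (ZMod.isUnit_iff_coprime c D).mpr hc
  have hone : ∀ m : ℕ, m.Coprime D → m % 4 = 1 → (1 : DirichletCharacter ℂ D) (m : ZMod D) = 1 :=
    fun m hm _ => MulChar.one_apply ((ZMod.isUnit_iff_coprime m D).mpr hm)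
  have h1 : (1 : DirichletCharacter ℂ D) (c : ZMod D) *
      (SS Q t (1 : DirichletCharacter ℂ D) * SS Q u (1 : DirichletCharacter ℂ D)⁻¹) =
      (TD Q t D : ℂ) * (TD Q u D : ℂ) := by
    rw [MulChar.one_apply hcu, inv_one, SS_triv _ hone, SS_triv _ hone, one_mul]
  classical
  by_cases h : 4 ∣ D
  · have hEx : Ex D = {1, DirichletCharacter.changeLevel h psi4} := by
      ext χ
      rw [mem_Ex, mem_insert, mem_singleton]
      constructor
      · rintro (h2 | ⟨_, h2⟩)
        · exact Or.inl h2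
        · exact Or.inr h2
      · rintro (h2 | h2)
        · exact Or.inl h2
        · exact Or.inr ⟨h, h2⟩
    rw [hEx, sum_insert, sum_singleton, h1]
    · have hone' : ∀ m : ℕ, m.Coprime D → m % 4 = 1 →
          DirichletCharacter.changeLevel h psi4 (m : ZMod D) = 1 := fun m hm h1 => chL_one h hm h1
      rw [SS_triv _ hone', SS_triv (DirichletCharacter.changeLevel h psi4)⁻¹
        (fun m hm h1 => inv_one_of _ (hone' m hm h1))]
      have hodd : c % 4 = 1 ∨ c % 4 = 3 := by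
        have h2 : ¬ 2 ∣ c := by
          intro h3
          have h4 : 2 ∣ Nat.gcd c D := Nat.dvd_gcd h3 ((by norm_num : 2 ∣ 4).trans h)
          rw [hc] at h4
          norm_num at h4
        omega
      unfold ch4
      rw [if_pos h]
      rcases hodd with h2 | h2
      · rw [chL_one h hc h2, if_pos h2]
        push_cast; ring
      · rw [chL_three h hc h2, if_neg (by omega)]
        push_cast; ring
    · rw [mem_singleton]
      intro h2
      have h3 : DirichletCharacter.changeLevel h psi4 =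
          DirichletCharacter.changeLevel h (1 : DirichletCharacter ℂ 4) := by
        rw [← h2, DirichletCharacter.changeLevel_one]
      exact psi4_ne_one (DirichletCharacter.changeLevel_injective h h3)
  · have hEx : Ex D = {1} := by
      ext χ
      rw [mem_Ex, mem_singleton]
      constructor
      · rintro (h2 | ⟨h3, _⟩)
        · exact h2
        · exact absurd h3 h
      · exact Or.inl
    rw [hEx, sum_singleton, h1]
    simp only [ch4, if_neg h]
    push_cast; ring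

open scoped Classical in
/-- sums over primitive characters -/
noncomputable def PS (f : ℕ) (g : DirichletCharacter ℂ f → ℝ) : ℝ :=
  ∑ ψ ∈ (univ : Finset (DirichletCharacter ℂ f)).filter (fun χ => χ.IsPrimitive), g ψ

theorem PS_mul (f : ℕ) (g : DirichletCharacter ℂ f → ℝ) (c : ℝ) :
    PS f (fun ψ => c * g ψ) = c * PS f g := by
  unfold PS
  rw [mul_sum]

theorem PS_nonneg (f : ℕ) (g : DirichletCharacter ℂ f → ℝ) (h : ∀ ψ, 0 ≤ g ψ) : 0 ≤ PS f g :=
  sum_nonneg fun ψ _ => h ψ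

open scoped Classical in
/-- sums over non-exceptional characters and primitive characters -/
theorem prim_sum (D : ℕ) [NeZero D] (w : DirichletCharacter ℂ D → ℝ) (hw : ∀ χ, 0 ≤ w χ)
    (W : (f : ℕ) → DirichletCharacter ℂ f → ℝ)
    (hW : ∀ f (h : f ∣ D) (ψ : DirichletCharacter ℂ f),
      w (DirichletCharacter.changeLevel h ψ) ≤ W f ψ) :
    ∑ χ ∈ Oth D, w χ ≤
      ∑ f ∈ D.divisors.filter (fun f => f ≠ 1 ∧ f ≠ 4), PS f (W f) := by
  have h1 : ∀ χ ∈ Oth D,
      χ.conductor ∈ D.divisors.filter (fun f => f ≠ 1 ∧ f ≠ 4) := by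
    intro χ hχ
    rw [mem_Oth] at hχ
    rw [mem_filter]
    refine ⟨Nat.mem_divisors.mpr ⟨χ.conductor_dvd_level, NeZero.ne D⟩, ?_, ?_⟩
    · intro h
      apply hχ
      rw [mem_Ex]
      exact Or.inl (DirichletCharacter.eq_one_iff_conductor_eq_one.mpr h)
    · intro h
      apply hχ
      rw [mem_Ex]
      have h4 : 4 ∣ D := h ▸ χ.conductor_dvd_level
      have h5 := χ.changeLevel_primitiveCharacter
      have h6 := χ.primitiveCharacter_isPrimitive
      have h7 : ∃ ψ : DirichletCharacter ℂ 4, DirichletCharacter.changeLevel h4 ψ = χ ∧ ψ ≠ 1 := by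
        have aux : ∀ (k : ℕ) (hk : k ∣ D) (ψ : DirichletCharacter ℂ k),
            DirichletCharacter.changeLevel hk ψ = χ → k = 4 →
            ∃ ψ : DirichletCharacter ℂ 4, DirichletCharacter.changeLevel h4 ψ = χ := by
          intro k hk ψ hψ hk4
          subst hk4
          exact ⟨ψ, hψ⟩
        obtain ⟨ψ, hψ⟩ := aux _ χ.conductor_dvd_level _ h5 h
        refine ⟨ψ, hψ, ?_⟩
        rintro rfl
        rw [DirichletCharacter.changeLevel_one] at hψ
        rw [← hψ, DirichletCharacter.conductor_one] at h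
        norm_num at h
      obtain ⟨ψ, h8, h9⟩ := h7
      rw [eq_psi4 ψ h9] at h8
      exact Or.inr ⟨h4, h8.symm⟩
  rw [← sum_fiberwise_of_maps_to h1]
  apply sum_le_sum
  intro f hf
  unfold PS
  rw [mem_filter, Nat.mem_divisors] at hf
  have hfm := hf.1.1
  have h2 : ((Oth D).filter
      (fun χ => χ.conductor = f)) ⊆
      ((univ : Finset (DirichletCharacter ℂ f)).filter (fun χ => χ.IsPrimitive)).image
        (DirichletCharacter.changeLevel hfm) := by
    intro χ hχ
    rw [mem_filter] at hχ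
    obtain ⟨_, hc⟩ := hχ
    subst hc
    rw [mem_image]
    exact ⟨χ.primitiveCharacter, by
      rw [mem_filter]; exact ⟨mem_univ _, χ.primitiveCharacter_isPrimitive⟩,
      χ.changeLevel_primitiveCharacter⟩
  calc _ ≤ ∑ χ ∈ ((univ : Finset (DirichletCharacter ℂ f)).filter (fun χ => χ.IsPrimitive)).image
        (DirichletCharacter.changeLevel hfm), w χ :=
        sum_le_sum_of_subset_of_nonneg h2 fun χ _ _ => hw χ
    _ = ∑ ψ ∈ (univ : Finset (DirichletCharacter ℂ f)).filter (fun χ => χ.IsPrimitive),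
        w (DirichletCharacter.changeLevel hfm ψ) := by
        rw [sum_image]
        intro x _ y _ hxy
        exact DirichletCharacter.changeLevel_injective hfm hxy
    _ ≤ _ := sum_le_sum fun ψ _ => hW f hfm ψ

/-- `∑ 1/φ(r) ≤ C (1 + log Y)` -/
theorem sum_inv_tot : ∃ C : ℝ, 0 < C ∧ ∀ Y : ℕ, 1 ≤ Y →
    ∑ r ∈ Icc 1 Y, 1 / (Nat.totient r : ℝ) ≤ C * (1 + Real.log Y) := by
  obtain ⟨C, hC, h⟩ := Pool.Agent.Helper112.sum_ratio_sq
  refine ⟨C, hC, fun Y hY => le_trans (sum_le_sum fun r hr => ?_) (h Y hY)⟩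
  rw [mem_Icc] at hr
  have hr0 : (0 : ℝ) < r := by exact_mod_cast (by omega : 0 < r)
  have ht : (0 : ℝ) < Nat.totient r := by exact_mod_cast Nat.totient_pos.2 (by omega)
  have hle : (Nat.totient r : ℝ) ≤ r := by exact_mod_cast Nat.totient_le r
  have h1 : 1 ≤ (r : ℝ) / Nat.totient r := by rw [one_le_div ht]; exact hle
  have h2 : (r : ℝ) / Nat.totient r ≤ ((r : ℝ) / Nat.totient r) ^ 2 := by nlinarith
  calc 1 / (Nat.totient r : ℝ) = 1 / (r : ℝ) * ((r : ℝ) / Nat.totient r) := by field_simp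
    _ ≤ 1 / (r : ℝ) * ((r : ℝ) / Nat.totient r) ^ 2 :=
      mul_le_mul_of_nonneg_left h2 (by positivity)

/-- sums over `D` and its divisors -/
theorem swap_sum (N : ℕ) (P : ℕ → ℝ) (hP : ∀ f, 0 ≤ P f) :
    ∑ D ∈ Icc 1 N, 1 / (Nat.totient D : ℝ) * ∑ f ∈ D.divisors.filter (fun f => f ≠ 1 ∧ f ≠ 4), P f ≤
      (∑ f ∈ (Icc 1 N).filter (fun f => f ≠ 1 ∧ f ≠ 4), 1 / (Nat.totient f : ℝ) * P f) *
        ∑ g ∈ Icc 1 N, 1 / (Nat.totient g : ℝ) := by
  have h1 : ∑ D ∈ Icc 1 N, 1 / (Nat.totient D : ℝ) *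
      ∑ f ∈ D.divisors.filter (fun f => f ≠ 1 ∧ f ≠ 4), P f =
      ∑ f ∈ (Icc 1 N).filter (fun f => f ≠ 1 ∧ f ≠ 4), ∑ D ∈ (Icc 1 N).filter (fun D => f ∣ D),
        1 / (Nat.totient D : ℝ) * P f := by
    simp_rw [mul_sum]
    refine sum_comm' fun D f => ?_
    simp only [mem_Icc, mem_filter, Nat.mem_divisors]
    constructor
    · rintro ⟨⟨h2, h3⟩, ⟨h4, h5⟩, h6⟩
      have h7 : f ≤ D := Nat.le_of_dvd (by omega) h4
      have h8 : 0 < f := Nat.pos_of_dvd_of_pos h4 (by omega)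
      exact ⟨⟨⟨h2, h3⟩, h4⟩, ⟨by omega, by omega⟩, h6⟩
    · rintro ⟨⟨⟨h2, h3⟩, h4⟩, ⟨h5, h5'⟩, h6⟩
      exact ⟨⟨h2, h3⟩, ⟨h4, by omega⟩, h6⟩
  rw [h1, sum_mul]
  refine sum_le_sum fun f hf => ?_
  rw [mem_filter, mem_Icc] at hf
  rw [← sum_mul]
  have htf : (0 : ℝ) < Nat.totient f := by exact_mod_cast Nat.totient_pos.2 (by omega)
  have h2 : ∑ D ∈ (Icc 1 N).filter (fun D => f ∣ D), 1 / (Nat.totient D : ℝ) ≤
      1 / (Nat.totient f : ℝ) * ∑ g ∈ Icc 1 N, 1 / (Nat.totient g : ℝ) := by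
    rw [mul_sum]
    have h3 : ∑ D ∈ (Icc 1 N).filter (fun D => f ∣ D), 1 / (Nat.totient D : ℝ) ≤
        ∑ D ∈ (Icc 1 N).filter (fun D => f ∣ D),
          1 / (Nat.totient f : ℝ) * (1 / (Nat.totient (D / f) : ℝ)) := by
      refine sum_le_sum fun D hD => ?_
      rw [mem_filter, mem_Icc] at hD
      obtain ⟨⟨h4, h5⟩, g, rfl⟩ := hD
      have hg : 0 < g := Nat.pos_of_ne_zero (by rintro rfl; simp at h4)
      rw [Nat.mul_div_cancel_left g (by omega : 0 < f)]
      have htg : (0 : ℝ) < Nat.totient g := by exact_mod_cast Nat.totient_pos.2 hg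
      rw [one_div_mul_one_div]
      apply one_div_le_one_div_of_le (by positivity)
      exact_mod_cast Nat.totient_super_multiplicative f g
    refine h3.trans ?_
    have hinj : Set.InjOn (fun D => D / f) ((Icc 1 N).filter (fun D => f ∣ D) : Finset ℕ) := by
      intro a ha b hb hab
      rw [mem_coe, mem_filter] at ha hb
      simp only at hab
      rw [← Nat.div_mul_cancel ha.2, ← Nat.div_mul_cancel hb.2, hab]
    rw [← sum_image (f := fun g => 1 / (Nat.totient f : ℝ) * (1 / (Nat.totient g : ℝ))) hinj]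
    apply sum_le_sum_of_subset_of_nonneg
    · intro g hg
      rw [mem_image] at hg
      obtain ⟨D, hD, rfl⟩ := hg
      rw [mem_filter, mem_Icc] at hD
      rw [mem_Icc]
      exact ⟨Nat.div_pos (Nat.le_of_dvd (by omega) hD.2) (by omega),
        (Nat.div_le_self _ _).trans hD.1.2⟩
    · intro g _ _
      positivity
  calc (∑ D ∈ (Icc 1 N).filter (fun D => f ∣ D), 1 / (Nat.totient D : ℝ)) * P f ≤
      (1 / (Nat.totient f : ℝ) * ∑ g ∈ Icc 1 N, 1 / (Nat.totient g : ℝ)) * P f :=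
        mul_le_mul_of_nonneg_right h2 (hP f)
    _ = _ := by ring

end Pool.Agent.W333.EC
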