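import Mathlib
import Pool.Agent.W333.EC.LsvC

/-! Pairs of primes in residue classes, on average (part 4 of LSV). -/

set_option autoImplicit false

namespace Pool.Agent.W333.EC

open Finset
open Pool.Agent.W78.EC

/-- the contribution of the primes dividing `D` -/
theorem bad_pairs {Q D C₀ c : ℕ} (hQ : 1 ≤ Q) (hC : C₀ ≤ Q) (hD : 1 ≤ D) (hDQ : D ≤ C₀ * Q)
    (t u : ℕ) :
    ∑ m₁ ∈ Ioc Q t, ∑ m₂ ∈ Ioc Q u, (if ¬ m₁.Coprime D ∧ m₂ ≡ c * m₁ [MOD D] then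
      th Q (m₁ : ℤ) * th Q (m₂ : ℤ) else 0) ≤ Real.log (2 * Q) ^ 2 := by
  have hQ1 : (1 : ℝ) ≤ Q := by exact_mod_cast hQ
  have hL : 0 ≤ Real.log (2 * Q) := Real.log_nonneg (by linarith)
  have h1 : ∀ m₁ ∈ Ioc Q t, ∑ m₂ ∈ Ioc Q u, (if ¬ m₁.Coprime D ∧ m₂ ≡ c * m₁ [MOD D] then
      th Q (m₁ : ℤ) * th Q (m₂ : ℤ) else 0) ≤
      (if ¬ m₁.Coprime D then th Q (m₁ : ℤ) else 0) * Real.log (2 * Q) := by
    intro m₁ _
    by_cases hm : ¬ m₁.Coprime D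
    · rw [if_pos hm]
      by_cases h0 : th Q (m₁ : ℤ) = 0
      · rw [h0]; simp
      · have hp := mem_PQ.1 (th_ne h0)
        have hpD : m₁ ∣ D := by
          by_contra hc
          exact hm ((Nat.Prime.coprime_iff_not_dvd hp.2.1).2 hc)
        have h2 : ∀ m₂ ∈ Ioc Q u, (if ¬ m₁.Coprime D ∧ m₂ ≡ c * m₁ [MOD D] then
            th Q (m₁ : ℤ) * th Q (m₂ : ℤ) else 0) ≤
            if m₂ = m₁ then th Q (m₁ : ℤ) * Real.log (2 * Q) else 0 := by
          intro m₂ _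
          by_cases h3 : m₂ = m₁
          · rw [if_pos h3]
            split_ifs
            · exact mul_le_mul_of_nonneg_left (th_le hQ m₂) (th_nonneg Q m₁)
            · exact mul_nonneg (th_nonneg Q m₁) hL
          · rw [if_neg h3]
            split_ifs with h4
            · by_cases h5 : th Q (m₂ : ℤ) = 0
              · rw [h5, mul_zero]
              · exfalso
                have hp2 := mem_PQ.1 (th_ne h5)
                have h6 : m₁ ∣ m₂ := by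
                  have h7 : m₂ ≡ c * m₁ [MOD m₁] := h4.2.of_dvd hpD
                  have h8 : c * m₁ ≡ 0 [MOD m₁] := (Nat.modEq_zero_iff_dvd).2 (dvd_mul_left _ _)
                  exact (Nat.modEq_zero_iff_dvd).1 (h7.trans h8)
                exact h3 ((Nat.prime_dvd_prime_iff_eq hp.2.1 hp2.2.1).1 h6).symm
            · exact le_rfl
        refine (sum_le_sum h2).trans ?_
        rw [sum_ite_eq']
        split_ifs
        · exact le_rfl
        · exact mul_nonneg (th_nonneg Q m₁) hL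
    · rw [if_neg hm, zero_mul]
      exact le_of_eq (sum_eq_zero fun m₂ _ => if_neg fun h => hm h.1)
  refine (sum_le_sum h1).trans ?_
  rw [← sum_mul, ← sum_filter, sq]
  exact mul_le_mul_of_nonneg_right (bad_sum hQ hC hD hDQ t) hL

/-- the contribution of the non-exceptional characters -/
noncomputable def Fo (Q t u D : ℕ) (x : ZMod D) : ℂ :=
  ∑ χ ∈ Oth D, χ x * (SS Q t χ * SS Q u χ⁻¹)

theorem norm_SS_inv (Q u : ℕ) {D : ℕ} [NeZero D] (χ : DirichletCharacter ℂ D) :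
    ‖SS Q u χ⁻¹‖ = ‖SS Q u χ‖ := by
  have h : SS Q u χ⁻¹ = (starRingEnd ℂ) (SS Q u χ) := by
    unfold SS
    rw [map_sum]
    refine sum_congr rfl fun m _ => ?_
    rw [map_mul, Complex.conj_ofReal]
    congr 1
    exact (MulChar.star_apply' χ _).symm
  rw [h, RCLike.norm_conj]

theorem sum_cast_le (D : ℕ) [NeZero D] (g : ZMod D → ℝ) (hg : ∀ x, 0 ≤ g x) :
    ∑ c ∈ (range D).filter (fun c => Nat.Coprime c D), g (c : ZMod D) ≤ ∑ x : ZMod D, g x := by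
  classical
  have hinj : Set.InjOn (fun c : ℕ => (c : ZMod D))
      ((range D).filter (fun c => Nat.Coprime c D) : Finset ℕ) := by
    intro a ha b hb hab
    rw [mem_coe, mem_filter, mem_range] at ha hb
    have h := (ZMod.natCast_eq_natCast_iff a b D).1 hab
    exact Nat.ModEq.eq_of_lt_of_lt h ha.1 hb.1
  rw [← sum_image hinj (f := g)]
  exact sum_le_sum_of_subset_of_nonneg (subset_univ _) fun x _ _ => hg x

theorem card_res (D : ℕ) : ((range D).filter (fun c => Nat.Coprime c D)).card = Nat.totient D := by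
  rw [Nat.totient_eq_card_coprime]
  congr 1
  ext c
  rw [mem_filter, mem_filter, Nat.coprime_comm]

theorem Fo_sum (Q t u D : ℕ) [NeZero D] :
    ∑ c ∈ (range D).filter (fun c => Nat.Coprime c D), ‖Fo Q t u D (c : ZMod D)‖ ≤
    Nat.totient D * √((a4 Q t D + a4 Q u D) / 2) := by
  have h1 := Real.sum_mul_le_sqrt_mul_sqrt ((range D).filter (fun c => Nat.Coprime c D))
    (fun _ => (1 : ℝ)) (fun c => ‖Fo Q t u D (c : ZMod D)‖)
  simp only [one_mul, one_pow, sum_const, nsmul_eq_mul, mul_one] at h1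
  rw [card_res] at h1
  refine h1.trans ?_
  have h2 : ∑ c ∈ (range D).filter (fun c => Nat.Coprime c D), ‖Fo Q t u D (c : ZMod D)‖ ^ 2 ≤
      (Nat.totient D : ℝ) * ((a4 Q t D + a4 Q u D) / 2) := by
    refine (sum_cast_le D (fun x => ‖Fo Q t u D x‖ ^ 2) (fun x => by positivity)).trans ?_
    have h3 := parseval (Oth D) (fun χ => SS Q t χ * SS Q u χ⁻¹)
    have h4 : ∑ x : ZMod D, ‖Fo Q t u D x‖ ^ 2 =
        ∑ x : ZMod D, ‖∑ χ ∈ Oth D, χ x * (SS Q t χ * SS Q u χ⁻¹)‖ ^ 2 := rfl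
    rw [h4, h3]
    apply mul_le_mul_of_nonneg_left _ (Nat.cast_nonneg _)
    unfold a4
    rw [← sum_add_distrib, sum_div]
    refine sum_le_sum fun χ _ => ?_
    rw [norm_mul, norm_SS_inv, mul_pow]
    nlinarith [sq_nonneg (‖SS Q t χ‖ ^ 2 - ‖SS Q u χ‖ ^ 2)]
  calc √(Nat.totient D : ℝ) *
      √(∑ c ∈ (range D).filter (fun c => Nat.Coprime c D), ‖Fo Q t u D (c : ZMod D)‖ ^ 2) ≤
      √(Nat.totient D : ℝ) * √((Nat.totient D : ℝ) * ((a4 Q t D + a4 Q u D) / 2)) :=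
        mul_le_mul_of_nonneg_left (Real.sqrt_le_sqrt h2) (Real.sqrt_nonneg _)
    _ = Nat.totient D * √((a4 Q t D + a4 Q u D) / 2) := by
        rw [Real.sqrt_mul (Nat.cast_nonneg _), ← mul_assoc, Real.mul_self_sqrt (Nat.cast_nonneg _)]

theorem ch4_le (D c : ℕ) : |1 + ch4 D c| ≤ 2 := by
  unfold ch4
  split_ifs <;> norm_num

theorem EE_le {Q D C₀ c : ℕ} (hQ : 1 ≤ Q) (hC : C₀ ≤ Q) (hD : 1 ≤ D) (hDQ : D ≤ C₀ * Q)
    (hc : c.Coprime D) (t u : ℕ) :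
    |EE Q D c t u| ≤ Real.log (2 * Q) ^ 2 + 2 / (Nat.totient D : ℝ) *
      |TD Q t D * TD Q u D - ((t : ℝ) - Q) * ((u : ℝ) - Q) / 4| +
      1 / (Nat.totient D : ℝ) * ‖Fo Q t u D (c : ZMod D)‖ := by
  have : NeZero D := ⟨by omega⟩
  have hφ : (0 : ℝ) < Nat.totient D := by exact_mod_cast Nat.totient_pos.2 (by omega)
  set P : ℝ := ∑ m₁ ∈ Ioc Q t, ∑ m₂ ∈ Ioc Q u, if m₁.Coprime D ∧ m₂ ≡ c * m₁ [MOD D] then
      th Q (m₁ : ℤ) * th Q (m₂ : ℤ) else 0 with hP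
  set R : ℝ := ∑ m₁ ∈ Ioc Q t, ∑ m₂ ∈ Ioc Q u, (if ¬ m₁.Coprime D ∧ m₂ ≡ c * m₁ [MOD D] then
      th Q (m₁ : ℤ) * th Q (m₂ : ℤ) else 0) with hR
  have h1 : (∑ m₁ ∈ Ioc Q t, ∑ m₂ ∈ Ioc Q u, if m₂ ≡ c * m₁ [MOD D] then
      th Q (m₁ : ℤ) * th Q (m₂ : ℤ) else 0) = P + R := by
    rw [hP, hR, ← sum_add_distrib]
    refine sum_congr rfl fun m₁ _ => ?_
    rw [← sum_add_distrib]
    refine sum_congr rfl fun m₂ _ => ?_
    by_cases h1 : m₁.Coprime D <;> by_cases h2 : m₂ ≡ c * m₁ [MOD D] <;> simp [h1, h2]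
  have hR0 : 0 ≤ R := by
    refine sum_nonneg fun m₁ _ => sum_nonneg fun m₂ _ => ?_
    split_ifs
    · exact mul_nonneg (th_nonneg Q m₁) (th_nonneg Q m₂)
    · exact le_rfl
  have hR1 : R ≤ Real.log (2 * Q) ^ 2 := bad_pairs hQ hC hD hDQ t u
  have h2 : (P : ℂ) = 1 / (Nat.totient D : ℂ) *
      ((((1 + ch4 D c) * (TD Q t D * TD Q u D) : ℝ) : ℂ) + Fo Q t u D (c : ZMod D)) := by
    rw [hP, pairs_eq hc, sum_split, Ex_sum hc]
    rfl
  have h3 : |P - (1 + ch4 D c) / (Nat.totient D : ℝ) * (TD Q t D * TD Q u D)| =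
      1 / (Nat.totient D : ℝ) * ‖Fo Q t u D (c : ZMod D)‖ := by
    rw [← Real.norm_eq_abs, ← Complex.norm_real]
    have h4 : ((P - (1 + ch4 D c) / (Nat.totient D : ℝ) * (TD Q t D * TD Q u D) : ℝ) : ℂ) =
        1 / (Nat.totient D : ℂ) * Fo Q t u D (c : ZMod D) := by
      rw [Complex.ofReal_sub, h2]
      push_cast
      ring
    rw [h4, norm_mul]
    congr 1
    rw [norm_div, norm_one, Complex.norm_natCast]
  have h5 : EE Q D c t u = R + (P - (1 + ch4 D c) / (Nat.totient D : ℝ) * (TD Q t D * TD Q u D)) +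
      (1 + ch4 D c) / (Nat.totient D : ℝ) *
        (TD Q t D * TD Q u D - ((t : ℝ) - Q) * ((u : ℝ) - Q) / 4) := by
    unfold EE
    rw [h1]
    field_simp
    ring
  have h6 : |(1 + ch4 D c) / (Nat.totient D : ℝ) *
        (TD Q t D * TD Q u D - ((t : ℝ) - Q) * ((u : ℝ) - Q) / 4)| ≤ 2 / (Nat.totient D : ℝ) *
        |TD Q t D * TD Q u D - ((t : ℝ) - Q) * ((u : ℝ) - Q) / 4| := by
    rw [abs_mul, abs_div, abs_of_pos hφ]
    apply mul_le_mul_of_nonneg_right _ (abs_nonneg _)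
    exact div_le_div_of_nonneg_right (ch4_le D c) hφ.le
  rw [h5]
  refine (abs_add_three _ _ _).trans ?_
  rw [h3, abs_of_nonneg hR0]
  linarith

theorem main_le {Q D C₀ : ℕ} (hQ : 1 ≤ Q) (hC : C₀ ≤ Q) (hD : 1 ≤ D) (hDQ : D ≤ C₀ * Q)
    {t u : ℕ} (ht1 : Q ≤ t) (ht2 : t ≤ 2 * Q) (hu1 : Q ≤ u) (hu2 : u ≤ 2 * Q) {δ ε : ℝ}
    (ht : |∑ m ∈ Ioc Q t, th Q (m : ℤ) - ((t : ℝ) - Q) / 2| ≤ δ)
    (hu : |∑ m ∈ Ioc Q u, th Q (m : ℤ) - ((u : ℝ) - Q) / 2| ≤ δ)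
    (hε : δ + Real.log (2 * Q) ≤ ε) :
    |TD Q t D * TD Q u D - ((t : ℝ) - Q) * ((u : ℝ) - Q) / 4| ≤ ε * (ε + Q) := by
  have ht' := TD_diff hQ hC hD hDQ t
  have hu' := TD_diff hQ hC hD hDQ u
  have ht1r : (Q : ℝ) ≤ t := by exact_mod_cast ht1
  have ht2r : (t : ℝ) ≤ 2 * Q := by exact_mod_cast ht2
  have hu1r : (Q : ℝ) ≤ u := by exact_mod_cast hu1
  have hu2r : (u : ℝ) ≤ 2 * Q := by exact_mod_cast hu2
  have h1 : |TD Q t D - ((t : ℝ) - Q) / 2| ≤ ε := by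
    have := abs_sub_le (TD Q t D) (∑ m ∈ Ioc Q t, th Q (m : ℤ)) (((t : ℝ) - Q) / 2)
    linarith
  have h2 : |TD Q u D - ((u : ℝ) - Q) / 2| ≤ ε := by
    have := abs_sub_le (TD Q u D) (∑ m ∈ Ioc Q u, th Q (m : ℤ)) (((u : ℝ) - Q) / 2)
    linarith
  have hε0 : 0 ≤ ε := (abs_nonneg _).trans h1
  have h3 : TD Q t D * TD Q u D - ((t : ℝ) - Q) * ((u : ℝ) - Q) / 4 =
      (TD Q t D - ((t : ℝ) - Q) / 2) * (TD Q u D - ((u : ℝ) - Q) / 2) +
      (TD Q t D - ((t : ℝ) - Q) / 2) * (((u : ℝ) - Q) / 2) +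
      (((t : ℝ) - Q) / 2) * (TD Q u D - ((u : ℝ) - Q) / 2) := by ring
  have h4 : |(TD Q t D - ((t : ℝ) - Q) / 2) * (TD Q u D - ((u : ℝ) - Q) / 2)| ≤ ε * ε := by
    rw [abs_mul]
    exact mul_le_mul h1 h2 (abs_nonneg _) hε0
  have h5 : |(TD Q t D - ((t : ℝ) - Q) / 2) * (((u : ℝ) - Q) / 2)| ≤ ε * (Q / 2) := by
    rw [abs_mul]
    apply mul_le_mul h1 _ (abs_nonneg _) hε0
    rw [abs_of_nonneg (by linarith)]
    linarith
  have h6 : |(((t : ℝ) - Q) / 2) * (TD Q u D - ((u : ℝ) - Q) / 2)| ≤ (Q / 2) * ε := by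
    rw [abs_mul]
    apply mul_le_mul _ h2 (abs_nonneg _) (by positivity)
    rw [abs_of_nonneg (by linarith)]
    linarith
  rw [h3]
  refine (abs_add_three _ _ _).trans ?_
  nlinarith

theorem lsv (h1 : S_SWC) (h2 : S_LS4) : S_LSV := by
  intro C₀ A
  obtain ⟨C, hC0, Q1, hW⟩ := W_bound h1 h2 C₀ (2 * A)
  obtain ⟨C4, Q2, hP⟩ := h1.2 A
  obtain ⟨Q3, hQ3⟩ := log_pow_le (A + 2) (4 * C₀ ^ 2)
  obtain ⟨Q4, hQ4⟩ := log_pow_le (A + 1) 2
  refine ⟨1 + 2 * C₀ * ((|C4| + 1) * (|C4| + 2)) + C₀ * √C,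
    max (max Q1 Q2) (max (max Q3 Q4) (C₀ + 3)), fun Q hQ t u ht1 ht2 hu1 hu2 => ?_⟩
  have hQQ1 : Q1 ≤ Q := by omega
  have hQQ2 : Q2 ≤ Q := by omega
  have hQQ3 : Q3 ≤ Q := by omega
  have hQQ4 : Q4 ≤ Q := by omega
  have hQC : C₀ ≤ Q := by omega
  have hQn : 3 ≤ Q := by omega
  have hQ1 : 1 ≤ Q := by omega
  have hQpos : (0 : ℝ) < Q := by exact_mod_cast (by omega : 0 < Q)
  have hQr : (3 : ℝ) ≤ Q := by exact_mod_cast hQn
  set l := Real.log Q with hl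
  have hl1 : 1 ≤ l := by
    have h1 : Real.log (Real.exp 1) ≤ Real.log Q := by
      apply Real.log_le_log (Real.exp_pos _)
      have := Real.exp_one_lt_d9
      linarith
    rwa [Real.log_exp] at h1
  have hl0 : 0 < l := by linarith
  have hlP : ∀ k : ℕ, 0 < l ^ k := fun k => by positivity
  set L := Real.log (2 * Q) with hL
  have hL0 : 0 ≤ L := Real.log_nonneg (by linarith)
  have hL2 : L ≤ 2 * l := by
    rw [hL, Real.log_mul (by norm_num) hQpos.ne']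
    have h3 : Real.log 2 ≤ Real.log Q := Real.log_le_log (by norm_num) (by linarith)
    linarith
  set N := C₀ * Q with hN
  have hNr : (N : ℝ) = C₀ * Q := by rw [hN]; push_cast; ring
  set ε : ℝ := (|C4| + 1) * (Q / l ^ A) with hε
  have hε1 : |C4| * (Q / l ^ A) + L ≤ ε := by
    have h3 := hQ4 Q hQQ4
    rw [← hl] at h3
    have h4 : L ≤ Q / l ^ A := by
      rw [le_div_iff₀ (hlP A)]
      calc L * l ^ A ≤ 2 * l * l ^ A := mul_le_mul_of_nonneg_right hL2 (hlP A).le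
        _ = 2 * l ^ (A + 1) := by rw [pow_succ]; ring
        _ ≤ Q := h3
    rw [hε, add_mul, one_mul]
    linarith
  have hε2 : ε + Q ≤ (|C4| + 2) * Q := by
    have h3 : (Q : ℝ) / l ^ A ≤ Q := div_le_self hQpos.le (one_le_pow₀ hl1)
    have h4 : ε ≤ (|C4| + 1) * Q := mul_le_mul_of_nonneg_left h3 (by positivity)
    linarith
  have hP' : ∀ s : ℕ, Q ≤ s → s ≤ 2 * Q →
      |∑ m ∈ Ioc Q s, th Q (m : ℤ) - ((s : ℝ) - Q) / 2| ≤ |C4| * (Q / l ^ A) := by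
    intro s hs1 hs2
    have h3 := hP Q hQQ2 s hs1 hs2
    refine h3.trans ?_
    rw [mul_div_assoc]
    exact mul_le_mul_of_nonneg_right (le_abs_self C4) (by positivity)
  set M : ℝ := ε * (ε + Q) with hM
  have hε0 : 0 ≤ ε := by positivity
  have hM0 : 0 ≤ M := by positivity
  have hM1 : M ≤ (|C4| + 1) * (|C4| + 2) * (Q ^ 2 / l ^ A) := by
    calc M ≤ ε * ((|C4| + 2) * Q) := mul_le_mul_of_nonneg_left hε2 hε0
      _ = _ := by rw [hε]; ring
  -- one modulus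
  have h3 : ∀ D ∈ Icc 1 N, ∑ c ∈ (range D).filter (fun c => Nat.Coprime c D), |EE Q D c t u| ≤
      N * L ^ 2 + 2 * M + √((a4 Q t D + a4 Q u D) / 2) := by
    intro D hD
    rw [mem_Icc] at hD
    have : NeZero D := ⟨by omega⟩
    have hφ : (0 : ℝ) < Nat.totient D := by exact_mod_cast Nat.totient_pos.2 (by omega)
    have hm := main_le hQ1 hQC hD.1 hD.2 ht1 ht2 hu1 hu2 (hP' t ht1 ht2) (hP' u hu1 hu2) hε1
    have h4 : ∀ c ∈ (range D).filter (fun c => Nat.Coprime c D), |EE Q D c t u| ≤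
        (L ^ 2 + 2 / (Nat.totient D : ℝ) * M) +
          1 / (Nat.totient D : ℝ) * ‖Fo Q t u D (c : ZMod D)‖ := by
      intro c hc
      rw [mem_filter] at hc
      have h5 := EE_le hQ1 hQC hD.1 hD.2 hc.2 t u
      have h6 : 2 / (Nat.totient D : ℝ) *
        |TD Q t D * TD Q u D - ((t : ℝ) - Q) * ((u : ℝ) - Q) / 4| ≤
        2 / (Nat.totient D : ℝ) * M := mul_le_mul_of_nonneg_left hm (by positivity)
      linarith
    refine (sum_le_sum h4).trans ?_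
    rw [sum_add_distrib, sum_const, card_res, nsmul_eq_mul, ← mul_sum]
    have h7 : (Nat.totient D : ℝ) ≤ N := by
      exact_mod_cast (Nat.totient_le D).trans hD.2
    have h8 : (Nat.totient D : ℝ) * L ^ 2 ≤ N * L ^ 2 :=
      mul_le_mul_of_nonneg_right h7 (by positivity)
    have h9 : (Nat.totient D : ℝ) * (L ^ 2 + 2 / (Nat.totient D : ℝ) * M) =
        Nat.totient D * L ^ 2 + 2 * M := by field_simp
    have h10 : 1 / (Nat.totient D : ℝ) *
        ∑ c ∈ (range D).filter (fun c => Nat.Coprime c D), ‖Fo Q t u D (c : ZMod D)‖ ≤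
        √((a4 Q t D + a4 Q u D) / 2) := by
      rw [one_div, inv_mul_le_iff₀ hφ]
      exact Fo_sum Q t u D
    rw [h9]
    linarith
  refine (sum_le_sum h3).trans ?_
  rw [sum_add_distrib, sum_const, Nat.card_Icc, Nat.add_sub_cancel, nsmul_eq_mul]
  have h4 : ∑ D ∈ Icc 1 N, √((a4 Q t D + a4 Q u D) / 2) ≤ N * (√C * (Q ^ 2 / l ^ A)) := by
    have h5 := Real.sum_mul_le_sqrt_mul_sqrt (Icc 1 N) (fun D => √(Nat.totient D : ℝ))
      (fun D => √(1 / (Nat.totient D : ℝ) * ((a4 Q t D + a4 Q u D) / 2)))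
    have h6 : ∑ D ∈ Icc 1 N, √((a4 Q t D + a4 Q u D) / 2) =
        ∑ D ∈ Icc 1 N, √(Nat.totient D : ℝ) *
          √(1 / (Nat.totient D : ℝ) * ((a4 Q t D + a4 Q u D) / 2)) := by
      refine sum_congr rfl fun D hD => ?_
      rw [mem_Icc] at hD
      have hφ : (0 : ℝ) < Nat.totient D := by exact_mod_cast Nat.totient_pos.2 (by omega)
      rw [← Real.sqrt_mul hφ.le]
      congr 1
      field_simp
    rw [h6]
    refine h5.trans ?_
    have h7 : √(∑ D ∈ Icc 1 N, √(Nat.totient D : ℝ) ^ 2) ≤ N := by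
      rw [Real.sqrt_le_left (Nat.cast_nonneg N)]
      calc ∑ D ∈ Icc 1 N, √(Nat.totient D : ℝ) ^ 2 ≤ ∑ _D ∈ Icc 1 N, (N : ℝ) := by
            refine sum_le_sum fun D hD => ?_
            rw [mem_Icc] at hD
            rw [Real.sq_sqrt (Nat.cast_nonneg _)]
            exact_mod_cast (Nat.totient_le D).trans hD.2
        _ = (N : ℝ) ^ 2 := by
            rw [sum_const, Nat.card_Icc, Nat.add_sub_cancel, nsmul_eq_mul, sq]
    have h8 : √(∑ D ∈ Icc 1 N, √(1 / (Nat.totient D : ℝ) * ((a4 Q t D + a4 Q u D) / 2)) ^ 2) ≤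
        √C * (Q ^ 2 / l ^ A) := by
      rw [Real.sqrt_le_left (by positivity)]
      have h9 : ∑ D ∈ Icc 1 N, √(1 / (Nat.totient D : ℝ) * ((a4 Q t D + a4 Q u D) / 2)) ^ 2 =
          (∑ D ∈ Icc 1 N, 1 / (Nat.totient D : ℝ) * a4 Q t D +
            ∑ D ∈ Icc 1 N, 1 / (Nat.totient D : ℝ) * a4 Q u D) / 2 := by
        rw [← sum_add_distrib, sum_div]
        refine sum_congr rfl fun D _ => ?_
        rw [Real.sq_sqrt]
        · ring
        · have := a4_nonneg Q t D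
          have := a4_nonneg Q u D
          positivity
      rw [h9, mul_pow, Real.sq_sqrt hC0, div_pow, ← pow_mul, ← pow_mul]
      have h10 := hW Q hQQ1 t ht1 ht2
      have h11 := hW Q hQQ1 u hu1 hu2
      rw [mul_comm A 2]
      norm_num
      rw [mul_div_assoc] at h10 h11
      simp only [one_div] at h10 h11
      linarith
    exact mul_le_mul h7 h8 (Real.sqrt_nonneg _) (Nat.cast_nonneg N)
  have h5 : (N : ℝ) * (N * L ^ 2) ≤ (Q : ℝ) ^ 3 / l ^ A := by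
    rw [le_div_iff₀ (hlP A)]
    have h6 := hQ3 Q hQQ3
    rw [← hl] at h6
    have h7 : L ^ 2 ≤ (2 * l) ^ 2 := pow_le_pow_left₀ hL0 hL2 2
    calc (N : ℝ) * (N * L ^ 2) * l ^ A ≤ N * (N * (2 * l) ^ 2) * l ^ A := by gcongr
      _ = (4 * C₀ ^ 2 * l ^ (A + 2)) * Q ^ 2 := by rw [hNr, pow_add]; ring
      _ ≤ Q * Q ^ 2 := mul_le_mul_of_nonneg_right h6 (by positivity)
      _ = _ := by ring
  have h6 : (N : ℝ) * (2 * M) ≤ 2 * C₀ * ((|C4| + 1) * (|C4| + 2)) * (Q ^ 3 / l ^ A) := by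
    calc (N : ℝ) * (2 * M) ≤ N * (2 * ((|C4| + 1) * (|C4| + 2) * (Q ^ 2 / l ^ A))) := by gcongr
      _ = _ := by rw [hNr]; ring
  have h7 : N * (√C * (Q ^ 2 / l ^ A)) = C₀ * √C * ((Q : ℝ) ^ 3 / l ^ A) := by
    rw [hNr]; ring
  have h8 : (1 + 2 * C₀ * ((|C4| + 1) * (|C4| + 2)) + C₀ * √C) * (Q : ℝ) ^ 3 / l ^ A =
      (Q : ℝ) ^ 3 / l ^ A + 2 * C₀ * ((|C4| + 1) * (|C4| + 2)) * (Q ^ 3 / l ^ A) +
        C₀ * √C * ((Q : ℝ) ^ 3 / l ^ A) := by ring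
  rw [h8, mul_add]
  linarith

end Pool.Agent.W333.EC
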